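import Mathlib
import Pool.Agent.Helper28.NT.Defs4
import Pool.Agent.Helper50.KS.Orbit

/-!
# NT (MP_83b46e_ag), block T: the coordinate `s` is transcendental over the base
-/

set_option autoImplicit false
set_option linter.unusedSectionVars false

namespace Pool.Agent.NT28

open Polynomial IntermediateField
open Pool.Agent.Helper15.KP (cub PS PT Dsc Dbin)
open Pool.Agent.Helper50.KS (two_closure Dsc_map Dbin_map)

universe u

section

variable {k N : Type u} [Field k] [Field N] [Algebra k N]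

private lemma mem_cl67 (S : Set N) (z : N) :
    z ∈ (AlgebraicIndependent.matroid k N).closure S ↔ IsAlgebraic (adjoin k S) z := by
  rw [AlgebraicIndependent.matroid_closure_eq]
  exact isAlgebraic_adjoin_iff.symm

/-- a cubic with a linear factor `s - a` is singular -/
private lemma dsc_zero67 {R : Type*} [CommRing R] (c : Fin 10 → R) (s : R) (h6 : c 6 = 0) (h7 : c 3 * s + c 7 = 0)
    (h8 : c 1 * s ^ 2 + c 4 * s + c 8 = 0) (h9 : c 0 * s ^ 3 + c 2 * s ^ 2 + c 5 * s + c 9 = 0) : Dsc c = 0 := by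
  have e7 : c 7 = -(c 3 * s) := by linear_combination h7
  have e8 : c 8 = -(c 1 * s ^ 2 + c 4 * s) := by linear_combination h8
  have e9 : c 9 = -(c 0 * s ^ 3 + c 2 * s ^ 2 + c 5 * s) := by linear_combination h9
  obtain ⟨A, hA⟩ : ∃ A, A = (2 * c 1 * s + c 4) ^ 2 - 4 * c 3 * (3 * c 0 * s ^ 2 + 2 * c 2 * s + c 5) := ⟨_, rfl⟩
  have hS : PS c = -A ^ 2 := by
    unfold PS
    rw [h6, e7, e8, e9, hA]
    ring
  have hT : PT c = A ^ 3 := by
    unfold PT
    rw [h6, e7, e8, e9, hA]
    ring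
  unfold Dsc
  rw [hS, hT]
  ring

end

theorem t : StmtT.{u} := by
  intro k N _ _ _ _ K x hK s t hst c hc h0 hb hd hs
  have hs' : IsAlgebraic K s := hs
  have hKx : (K : Set N) ⊆ (AlgebraicIndependent.matroid k N).closure {x} := by
    intro z hz
    rw [mem_cl67]
    exact hK z hz
  have hsK : s ∈ (AlgebraicIndependent.matroid k N).closure (K : Set N) := by
    rw [mem_cl67, adjoin_self]
    exact hs'
  have hsx : s ∈ (AlgebraicIndependent.matroid k N).closure {x} :=
    (AlgebraicIndependent.matroid k N).closure_subset_closure_of_subset_closure hKx hsK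
  have key : ∀ L : IntermediateField k N, (∀ z ∈ K, z ∈ L) → s ∈ L → ¬ IsAlgebraic L t →
      (c 6 : N) = 0 ∧ (c 3 : N) * s + c 7 = 0 ∧ (c 1 : N) * s ^ 2 + c 4 * s + c 8 = 0 ∧
        (c 0 : N) * s ^ 3 + c 2 * s ^ 2 + c 5 * s + c 9 = 0 := by
    intro L hKL hsL ht
    have m : ∀ i, (c i : N) ∈ L := fun i => hKL _ (c i).2
    have m3 : (c 6 : N) ∈ L := m 6
    have m2 : (c 3 : N) * s + c 7 ∈ L := L.add_mem (L.mul_mem (m 3) hsL) (m 7)
    have m1 : (c 1 : N) * s ^ 2 + c 4 * s + c 8 ∈ L :=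
      L.add_mem (L.add_mem (L.mul_mem (m 1) (pow_mem hsL 2)) (L.mul_mem (m 4) hsL)) (m 8)
    have m0 : (c 0 : N) * s ^ 3 + c 2 * s ^ 2 + c 5 * s + c 9 ∈ L :=
      L.add_mem (L.add_mem (L.add_mem (L.mul_mem (m 0) (pow_mem hsL 3)) (L.mul_mem (m 2) (pow_mem hsL 2)))
        (L.mul_mem (m 5) hsL)) (m 9)
    have hP : (C ⟨_, m3⟩ * X ^ 3 + C ⟨_, m2⟩ * X ^ 2 + C ⟨_, m1⟩ * X + C ⟨_, m0⟩ : L[X]) = 0 := by
      by_contra hne
      refine ht ⟨_, hne, ?_⟩
      simp only [map_add, map_mul, map_pow, aeval_C, aeval_X, IntermediateField.algebraMap_apply]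
      rw [← hc]
      unfold cub
      ring
    have q3 := congrArg (fun p => coeff p 3) hP
    have q2 := congrArg (fun p => coeff p 2) hP
    have q1 := congrArg (fun p => coeff p 1) hP
    have q0 := congrArg (fun p => coeff p 0) hP
    have r3 : (⟨_, m3⟩ : L) = 0 := by simpa [coeff_X, coeff_C, coeff_X_pow] using q3
    have r2 : (⟨_, m2⟩ : L) = 0 := by simpa [coeff_X, coeff_C, coeff_X_pow] using q2
    have r1 : (⟨_, m1⟩ : L) = 0 := by simpa [coeff_X, coeff_C, coeff_X_pow] using q1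
    have r0 : (⟨_, m0⟩ : L) = 0 := by simpa [coeff_X, coeff_C, coeff_X_pow] using q0
    exact ⟨congrArg Subtype.val r3, congrArg Subtype.val r2, congrArg Subtype.val r1, congrArg Subtype.val r0⟩
  by_cases ht : IsAlgebraic (adjoin k ((K : Set N) ∪ {s})) t
  · have h1 : t ∈ (AlgebraicIndependent.matroid k N).closure ((K : Set N) ∪ {s}) := (mem_cl67 _ _).mpr ht
    have h2 : ((K : Set N) ∪ {s}) ⊆ (AlgebraicIndependent.matroid k N).closure {x} := by
      rintro z (hz | hz)
      · exact hKx hz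
      · rw [Set.mem_singleton_iff] at hz
        rw [hz]
        exact hsx
    exact two_closure hst hsx
      ((AlgebraicIndependent.matroid k N).closure_subset_closure_of_subset_closure h2 h1)
  · obtain ⟨h6, h7, h8, h9⟩ := key (adjoin k ((K : Set N) ∪ {s})) (fun z hz => subset_adjoin k _ (Or.inl hz))
      (subset_adjoin k _ (Or.inr rfl)) ht
    have h1 := dsc_zero67 (fun j => (c j : N)) s h6 h7 h8 h9
    have h2 := Dsc_map K.val.toRingHom c
    have h3 : (Dsc c : K) = 0 := by
      apply Subtype.ext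
      exact h2.symm.trans h1
    exact hd h3

end Pool.Agent.NT28
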