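import Mathlib
import Pool.Agent.Helper28.NT.Sing
import Pool.Agent.Helper98.NT.P6

/-!
# NT (MP_83b46e_ag), block V: embeddings with the same image of the point `p 0` permute the lines through it
-/

set_option autoImplicit false
set_option linter.unusedSectionVars false

namespace Pool.Agent.NT28

universe u

namespace Pts

section map

variable {k N L : Type u} [Field k] [Field N] [Algebra k N] [Field L] [Algebra k L]

lemma ext_map (Q : Fin 3 → Matrix (Fin 3) (Fin 3) k) (τ : N →ₐ[k] L) (l : Fin 3) :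
    ext L Q l = (ext N Q l).map (τ : N →+* L) := by
  ext a b
  exact (τ.commutes _).symm

lemma qm_map (Q : Fin 3 → Matrix (Fin 3) (Fin 3) k) (τ : N →ₐ[k] L) (e : Fin 3 → N) :
    qm (ext L Q) (fun a => τ (e a)) = (qm (ext N Q) e).map (τ : N →+* L) := by
  ext a b
  simp only [qm, Matrix.sum_apply, Matrix.smul_apply, Matrix.map_apply, smul_eq_mul, map_sum, map_mul]
  refine Finset.sum_congr rfl fun l _ => ?_
  rw [ext_map Q τ l]
  rfl

lemma dl_map (Q : Fin 3 → Matrix (Fin 3) (Fin 3) k) (τ : N →ₐ[k] L) (e : Fin 3 → N) :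
    dl (ext L Q) (fun a => τ (e a)) = τ (dl (ext N Q) e) := by
  unfold dl
  rw [qm_map]
  exact ((τ : N →+* L).map_det _).symm

lemma mv_map (A : Matrix (Fin 3) (Fin 3) N) (τ : N →ₐ[k] L) (x : Fin 3 → N) (a : Fin 3) :
    mv (A.map (τ : N →+* L)) (fun b => τ (x b)) a = τ (mv A x a) := by
  simp only [mv, Matrix.map_apply, map_sum, map_mul]
  rfl

lemma inj (τ : N →ₐ[k] L) {a b : N} (h : τ a = τ b) : a = b := τ.toRingHom.injective h

lemma crs_map (τ : N →ₐ[k] L) (x y : Fin 3 → N) (a : Fin 3) :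
    crs (fun a => τ (x a)) (fun a => τ (y a)) a = τ (crs x y a) := by
  let _ := (τ : N →+* L).toAlgebra
  exact map_crs (τ : N →+* L) x y a

lemma dot_map (τ : N →ₐ[k] L) (x y : Fin 3 → N) : dot (fun a => τ (x a)) (fun a => τ (y a)) = τ (dot x y) := by
  let _ := (τ : N →+* L).toAlgebra
  exact map_dot (τ : N →+* L) x y

lemma bil_map (τ : N →ₐ[k] L) (A : Matrix (Fin 3) (Fin 3) N) (x y : Fin 3 → N) :
    bil (A.map (τ : N →+* L)) (fun a => τ (x a)) (fun a => τ (y a)) = τ (bil A x y) := by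
  let _ := (τ : N →+* L).toAlgebra
  exact map_bil A (τ : N →+* L) x y

lemma qv_map (τ : N →ₐ[k] L) (A : Matrix (Fin 3) (Fin 3) N) (x : Fin 3 → N) :
    qv (A.map (τ : N →+* L)) (fun a => τ (x a)) = τ (qv A x) := by
  let _ := (τ : N →+* L).toAlgebra
  exact map_qv A (τ : N →+* L) x

/-- The image of the four points under an embedding. -/
def map (P : Pts k N) (τ : N →ₐ[k] L) : Pts k L where
  Q := P.Q
  smo := P.smo
  f := fun a => τ (P.f a)
  f0 := by
    intro h
    apply P.f0
    funext a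
    apply inj τ
    rw [Pi.zero_apply, map_zero]
    exact congrFun h a
  p := fun i a => τ (P.p i a)
  ind := by
    intro i j hij h
    apply P.ind i j hij
    funext a
    apply inj τ
    rw [Pi.zero_apply, map_zero, ← crs_map]
    exact congrFun h a
  lam := fun i => τ (P.lam i)
  q := by
    intro i l
    rw [ext_map P.Q τ l]
    rw [qv_map, P.q i l, map_mul]

lemma map_bv (P : Pts k N) (τ : N →ₐ[k] L) (x y : Fin 3 → N) (l : Fin 3) :
    bv (ext L P.Q) (fun a => τ (x a)) (fun a => τ (y a)) l = τ (bv (ext N P.Q) x y l) := by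
  unfold bv
  rw [ext_map P.Q τ l]
  exact bil_map τ _ x y

lemma map_e [CharZero N] [CharZero L] (P : Pts k N) (τ : N →ₐ[k] L) (i j : Fin 4) (a : Fin 3) :
    (P.map τ).e i j a = τ (P.e i j a) := by
  unfold Pts.e
  rw [← crs_map]
  congr 1
  funext l
  exact P.map_bv τ _ _ l

lemma map_IsV [CharZero N] [CharZero L] {P : Pts k N} (τ : N →ₐ[k] L) {e : Fin 3 → N} {i j : Fin 4} {v : Fin 3 → N}
    (h : P.IsV e i j v) : (P.map τ).IsV (fun a => τ (e a)) i j (fun a => τ (v a)) := by
  have key : ∀ i : Fin 4, (∀ a, mv (qm P.QN e) (P.p i) a = - crs v (P.p i) a / 2) →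
      ∀ a, mv (qm (P.map τ).QN fun a => τ (e a)) ((P.map τ).p i) a = - crs (fun a => τ (v a)) ((P.map τ).p i) a / 2 := by
    intro i hi a
    have h1 : mv (qm (ext L P.Q) fun a => τ (e a)) (fun a => τ (P.p i a)) a = τ (mv (qm (ext N P.Q) e) (P.p i) a) := by
      rw [qm_map]
      exact mv_map _ τ _ a
    have h2 : crs (fun a => τ (v a)) (fun a => τ (P.p i a)) a = τ (crs v (P.p i) a) := crs_map τ _ _ a
    change mv (qm (ext L P.Q) fun a => τ (e a)) (fun a => τ (P.p i a)) a =
      - crs (fun a => τ (v a)) (fun a => τ (P.p i a)) a / 2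
    rw [h1, h2, hi a, map_div₀, map_neg, map_ofNat]
  exact ⟨key i h.1, key j h.2⟩

end map

section perm

variable {k N L : Type u} [Field k] [Field N] [CharZero N] [Algebra k N] [Field L] [CharZero L] [Algebra k L]

/-- two vectors with the same products -/
lemma eq_or_neg {v w : Fin 3 → L} (h : ∀ a b, v a * v b = w a * w b) : v = w ∨ v = fun a => - w a := by
  by_cases hw : w = 0
  · left
    funext a
    have h1 := h a a
    rw [hw] at h1 ⊢
    simp only [Pi.zero_apply, mul_zero, mul_self_eq_zero] at h1 ⊢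
    exact h1
  · obtain ⟨b, hb⟩ := Function.ne_iff.mp hw
    simp only [Pi.zero_apply] at hb
    have h1 := h b b
    rcases mul_self_eq_mul_self_iff.mp h1 with h2 | h2
    · left
      funext a
      have h3 := h a b
      rw [h2] at h3
      exact mul_right_cancel₀ hb h3
    · right
      funext a
      have h3 := h a b
      rw [h2] at h3
      have h4 : (v a + w a) * w b = 0 := by linear_combination - h3
      have h5 := (mul_eq_zero.mp h4).resolve_right hb
      linear_combination h5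

/-- Two embeddings of `N` with the same values at the point `p 0` permute the three lines through the point `p 0`. -/
theorem perm (P : Pts k N) (eh vh : Fin 4 → Fin 3 → N) (eh2 : ∀ j, 0 ≠ j → eh j 2 = 1)
    (ehs : ∀ j, 0 ≠ j → ∀ a, P.e 0 j a = P.e 0 j 2 * eh j a) (hV : ∀ j, 0 ≠ j → P.IsV (eh j) 0 j (vh j))
    (σ τ : N →ₐ[k] L) (h0 : ∀ a, σ (P.p 0 a) = τ (P.p 0 a)) :
    ∃ π : Equiv.Perm {j : Fin 4 // 0 ≠ j}, ∀ j : {j : Fin 4 // 0 ≠ j}, (∀ a, σ (eh j a) = τ (eh (π j) a)) ∧
      ∀ a, σ (vh j a) = τ (vh (π j) a) := by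
  -- the parameters are proportional to `eh`
  have he2 : ∀ j, 0 ≠ j → P.e 0 j 2 ≠ 0 := by
    intro j hj h
    apply P.e_ne hj
    funext a
    rw [ehs j hj a, h, zero_mul]
    rfl
  have hpe : ∀ j, 0 ≠ j → ∀ a, eh j a = (P.e 0 j 2)⁻¹ * P.e 0 j a := by
    intro j hj a
    rw [ehs j hj a, inv_mul_cancel_left₀ (he2 j hj)]
  have heh0 : ∀ j, 0 ≠ j → eh j ≠ 0 := by
    intro j hj h
    have h1 := eh2 j hj
    rw [h] at h1
    exact zero_ne_one h1
  have hef : ∀ j, 0 ≠ j → dot (eh j) P.f = 0 := by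
    intro j hj
    have h1 := P.e_f 0 j
    unfold dot at h1 ⊢
    rw [hpe j hj 0, hpe j hj 1, hpe j hj 2]
    linear_combination (P.e 0 j 2)⁻¹ * h1
  have hdl : ∀ j, 0 ≠ j → dl P.QN (eh j) = 0 := by
    intro j hj
    have h1 := P.dl_e hj
    have h2 : eh j = fun a => (P.e 0 j 2)⁻¹ * P.e 0 j a := funext (hpe j hj)
    have h3 : qm P.QN (eh j) = (P.e 0 j 2)⁻¹ • qm P.QN (P.e 0 j) := by
      rw [h2]
      ext a b
      simp only [qm, Matrix.sum_apply, Matrix.smul_apply, smul_eq_mul, Finset.mul_sum]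
      refine Finset.sum_congr rfl fun l _ => ?_
      ring
    unfold dl at h1 ⊢
    rw [h3, Matrix.det_smul, h1, mul_zero]
  -- proportionality of `f`
  have hfp : ∀ l, σ (P.lam 0) * σ (P.f l) = τ (P.lam 0) * τ (P.f l) := by
    intro l
    have h1 := (P.map σ).q 0 l
    have h2 := (P.map τ).q 0 l
    have h3 : (P.map σ).p 0 = (P.map τ).p 0 := funext h0
    rw [h3] at h1
    exact h1.symm.trans h2
  have hlσ : σ (P.lam 0) ≠ 0 := (P.map σ).lam_ne 0
  have hlτ : τ (P.lam 0) ≠ 0 := (P.map τ).lam_ne 0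
  -- the index
  have hex : ∀ j : {j : Fin 4 // 0 ≠ j}, ∃ j' : {j : Fin 4 // 0 ≠ j}, ∀ a, σ (eh j a) = τ (eh j' a) := by
    rintro ⟨j, hj⟩
    have h1 : dot (fun a => σ (eh j a)) (P.map τ).f = 0 := by
      have h2 : dot (fun a => σ (eh j a)) (fun a => σ (P.f a)) = 0 := by
        rw [dot_map, hef j hj, map_zero]
      change dot (fun a => σ (eh j a)) (fun a => τ (P.f a)) = 0
      have h3 : τ (P.lam 0) * dot (fun a => σ (eh j a)) (fun a => τ (P.f a)) = 0 := by
        unfold dot at h2 ⊢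
        have f0 := hfp 0
        have f1 := hfp 1
        have f2 := hfp 2
        linear_combination σ (P.lam 0) * h2 - σ (eh j 0) * f0 - σ (eh j 1) * f1 - σ (eh j 2) * f2
      exact (mul_eq_zero.mp h3).resolve_left hlτ
    have h4 : dl (P.map τ).QN (fun a => σ (eh j a)) = 0 := by
      change dl (ext L P.Q) (fun a => σ (eh j a)) = 0
      rw [dl_map]
      have h5 : dl (ext N P.Q) (eh j) = 0 := hdl j hj
      rw [h5, map_zero]
    obtain ⟨j', hj', c, hc⟩ := (P.map τ).three h1 h4
    refine ⟨⟨j', hj'⟩, fun a => ?_⟩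
    have h6 : ∀ a, σ (eh j a) = c * τ (P.e 0 j' 2) * τ (eh j' a) := by
      intro a
      rw [hc a, P.map_e τ, ehs j' hj' a, map_mul]
      ring
    have h7 := h6 2
    rw [eh2 j hj, eh2 j' hj', map_one, map_one, mul_one] at h7
    rw [h6 a, ← h7, one_mul]
  choose π hπ using hex
  have hinj : Function.Injective π := by
    intro j j' h
    have h1 : ∀ a, eh j a = eh j' a := by
      intro a
      apply inj σ
      rw [hπ j a, hπ j' a, h]
    by_contra hne
    have hne' : (j : Fin 4) ≠ j' := fun h => hne (Subtype.ext h)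
    refine P.three_ne j.2 j'.2 hne' (P.e 0 j 2 * (P.e 0 j' 2)⁻¹) fun a => ?_
    rw [ehs j j.2 a, h1 a, hpe j' j'.2 a]
    ring
  refine ⟨Equiv.ofBijective π (Finite.injective_iff_bijective.mp hinj), fun j => ⟨fun a => hπ j a, ?_⟩⟩
  change ∀ a, σ (vh j a) = τ (vh (π j) a)
  have v1 := map_IsV σ (hV j j.2)
  have v2 := map_IsV τ (hV (π j) (π j).2)
  have he : (fun a => σ (eh j a)) = fun a => τ (eh (π j) a) := funext (hπ j)
  have a1 := v1.adj j.2
  have a2 := v2.adj (π j).2
  have h8 : ∀ a b, σ (vh j a) * σ (vh j b) = τ (vh (π j) a) * τ (vh (π j) b) := by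
    intro a b
    have b1 := a1 a b
    have b2 := a2 a b
    rw [he] at b1
    exact b1.trans b2.symm
  have h9 : ∀ a, crs (fun a => σ (vh j a)) (fun a => τ (P.p 0 a)) a =
      crs (fun a => τ (vh (π j) a)) (fun a => τ (P.p 0 a)) a := by
    intro a
    have b1 := v1.1 a
    have b2 := v2.1 a
    have h3 : (P.map σ).p 0 = (P.map τ).p 0 := funext h0
    rw [h3, he] at b1
    have b3 := b1.symm.trans b2
    have b4 : - crs (fun a => σ (vh j a)) (fun a => τ (P.p 0 a)) a / 2 =
      - crs (fun a => τ (vh (π j) a)) (fun a => τ (P.p 0 a)) a / 2 := b3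
    linear_combination (-2) * b4
  rcases eq_or_neg (v := fun a => σ (vh j a)) (w := fun a => τ (vh (π j) a)) h8 with h | h
  · exact fun a => congrFun h a
  · exfalso
    have hb : bil (qm (P.map τ).QN fun a => τ (eh (π j) a)) ((P.map τ).p 0) ((P.map τ).p (π j)) = 0 := by
      have c1 : bil (qm P.QN (eh (π j))) (P.p 0) (P.p (π j)) = 0 := by
        have c2 := P.e_b 0 (π j)
        rw [bil_qm] at c2 ⊢
        unfold dot at c2 ⊢
        rw [hpe _ (π j).2 0, hpe _ (π j).2 1, hpe _ (π j).2 2]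
        linear_combination (P.e 0 (π j) 2)⁻¹ * c2
      change bil (qm (ext L P.Q) fun a => τ (eh (π j) a)) (fun a => τ (P.p 0 a)) (fun a => τ (P.p (π j) a)) = 0
      rw [qm_map]
      have c3 : bil (qm (ext N P.Q) (eh (π j))) (P.p 0) (P.p (π j)) = 0 := c1
      rw [bil_map, c3, map_zero]
    have hne : (fun a => τ (eh (π j) a)) ≠ 0 := by
      intro h
      apply heh0 (π j) (π j).2
      funext a
      apply inj τ
      rw [Pi.zero_apply, map_zero]
      exact congrFun h a
    have hdot : dot (fun a => τ (eh (π j) a)) (P.map τ).f = 0 := by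
      change dot (fun a => τ (eh (π j) a)) (fun a => τ (P.f a)) = 0
      rw [dot_map, hef _ (π j).2, map_zero]
    apply v2.crs_ne (π j).2 hne hdot hb
    funext a
    have d1 := h9 a
    rw [h] at d1
    change crs (fun a => τ (vh (π j) a)) (fun a => τ (P.p 0 a)) a = 0
    have d2 : crs (fun a => - τ (vh (π j) a)) (fun a => τ (P.p 0 a)) a =
        - crs (fun a => τ (vh (π j) a)) (fun a => τ (P.p 0 a)) a := by
      fin_cases a <;> simp only [crs0, crs1, crs2, Fin.zero_eta, Fin.mk_one, Fin.reduceFinMk] <;> ring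
    rw [d2] at d1
    have d3 : (2 : L) * crs (fun a => τ (vh (π j) a)) (fun a => τ (P.p 0 a)) a = 0 := by linear_combination - d1
    exact (mul_eq_zero.mp d3).resolve_left two_ne_zero

end perm

end Pts

end Pool.Agent.NT28
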